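import Pool.Agent.NH85.MQ.Sys
import Pool.Agent.X69.Ric.PatC
import Pool.Agent.X69.Ric.SysA

/-!
# Common patterns in the `m` with `m ^ 2 + 1` and `m ^ 2 + 3` prime or almost prime

A theorem of Szemeredi type, with the number of patterns of the right order of magnitude, for the sets of
integers `m` such that `m ^ 2 + 1` and `m ^ 2 + 3` have no small prime factors; several such sets, in different
intervals, have common difference vectors. The set of the `m` such that `m ^ 2 + 1` and `m ^ 2 + 3` have at most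
`R` prime factors, all of them larger than `m ^ (1 / R)`, is such a set in every interval
`(X, X + Y]`, `X ^ θ ≤ Y ≤ X`.

The proof applies the theorems of `Pool.Agent.X69.Ric` (in the starting files) on systems of polynomials to
the system `X ^ 2 + 1`, `X ^ 2 + 3`.
-/

set_option autoImplicit false

namespace Pool.Agent.Results.MP_2dba45_nt.CommonPatterns

open Filter

/-- All prime factors of `n ^ 2 + 1` and of `n ^ 2 + 3` are larger than `y`. -/
def Rough (y : ℝ) (n : ℕ) : Prop := ∀ q : ℕ, q.Prime → (q ∣ n ^ 2 + 1 ∨ q ∣ n ^ 2 + 3) → y < q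

/-- The integer `f · h = f 0 * h 0 + f 1 * h 1 + ...`. -/
def dot {m : ℕ} (f h : Fin m → ℕ) : ℕ := ∑ i, f i * h i

/-- The number of the residues `u` modulo `q` such that `q` divides `(u + f · h) ^ 2 + 1` or
`(u + f · h) ^ 2 + 3` for some `f ∈ P`. -/
noncomputable def omega {m : ℕ} (h : Fin m → ℕ) (P : Finset (Fin m → ℕ)) (q : ℕ) : ℕ :=
  {u : ℕ | 1 ≤ u ∧ u ≤ q ∧ ∃ f ∈ P, q ∣ (u + dot f h) ^ 2 + 1 ∨ q ∣ (u + dot f h) ^ 2 + 3}.ncard

/-- The product of the `1 - w q / q` over the primes `q ≤ X`. -/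
noncomputable def product (w : ℕ → ℕ) (X : ℕ) : ℝ :=
  ∏ q ∈ (Finset.Icc 1 X).filter Nat.Prime, (1 - (w q : ℝ) / q)

/-- The number of the `n ∈ S` such that all the `n + f · h`, `f ∈ P`, are in `S`. -/
noncomputable def count (S : Set ℕ) {m : ℕ} (h : Fin m → ℕ) (P : Finset (Fin m → ℕ)) : ℕ :=
  {n : ℕ | n ∈ S ∧ ∀ f ∈ P, n + dot f h ∈ S}.ncard

/-- For all `P ⊆ {0, ..., k - 1} ^ m` with `0 ∈ P`: the integers `f · h`, `f ∈ P`, are different, the
conditions modulo the primes are solvable, and each of the sets `S j` contains at least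
`c X ∏ (1 - omega h P q / q)` of the patterns `n + f · h`, `f ∈ P`. -/
def Common {M m : ℕ} (c : ℝ) (k X : ℕ) (S : Fin M → Set ℕ) (h : Fin m → ℕ) : Prop :=
  ∀ P : Finset (Fin m → ℕ), (∀ f ∈ P, ∀ i, f i < k) → (fun _ => 0) ∈ P →
    Set.InjOn (fun f => dot f h) (P : Set (Fin m → ℕ)) ∧ (∀ q : ℕ, q.Prime → omega h P q < q) ∧
      ∀ j, c * (X * product (omega h P) X) ≤ (count (S j) h P : ℝ)

/-- The `n` for which `n ^ 2 + 1` and `n ^ 2 + 3` have at most `R` prime factors, counted with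
multiplicity, all of them larger than `n ^ (1 / R)`. -/
def Almost (R : ℕ) : Set ℕ :=
  {n | (n ^ 2 + 1).primeFactorsList.length ≤ R ∧ (n ^ 2 + 3).primeFactorsList.length ≤ R ∧
    Rough ((n : ℝ) ^ (1 / (R : ℝ))) n}

/-- **Common patterns** in the `n` with `n ^ 2 + 1` and `n ^ 2 + 3` rough or almost prime. -/
theorem result :
    (∀ (M m k : ℕ), 1 ≤ M → ∀ κ δ : ℝ, 0 < κ → κ ≤ 1 → 0 < δ →
      ∃ c : ℝ, 0 < c ∧ ∃ B : ℕ, ∀ᶠ X : ℕ in atTop,
      ∀ D : ℕ, Real.log X ^ B ≤ D → D ≤ X → ∀ (A : Fin M → ℕ) (S : Fin M → Set ℕ),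
        (∀ j, S j ⊆ Set.Ioc (A j) (A j + X)) → (∀ j, ∀ n ∈ S j, Rough ((X : ℝ) ^ κ) n) →
        (∀ j, δ * X / Real.log X ^ 2 ≤ ((S j).ncard : ℝ)) →
        c * (D : ℝ) ^ m ≤ ({h : Fin m → ℕ | (∀ i, 1 ≤ h i ∧ h i ≤ D) ∧ Common c k X S h}.ncard : ℝ)) ∧
    ∀ θ : ℝ, 0 < θ → θ ≤ 1 → ∃ r₀ : ℕ, 2 ≤ r₀ ∧ ∀ R : ℕ, r₀ ≤ R → ∃ δ : ℝ, 0 < δ ∧
      ∀ᶠ X : ℕ in atTop, ∀ Y : ℕ, (X : ℝ) ^ θ ≤ Y → Y ≤ X →
        δ * Y / Real.log Y ^ 2 ≤ ((Almost R ∩ Set.Ioc X (X + Y)).ncard : ℝ) ∧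
        ∀ n ∈ Almost R ∩ Set.Ioc X (X + Y), Rough ((Y : ℝ) ^ (1 / (R : ℝ))) n := by
  refine ⟨fun M m k hM κ δ hκ hκ1 hδ => ?_, fun θ hθ hθ1 => ?_⟩
  · obtain ⟨c, hc, B, h⟩ := Pool.Agent.X69.Ric.sys_common (M := M) (fun _ => Pool.Agent.NH85.MQ.FF)
      (fun _ => Pool.Agent.NH85.MQ.sys) (fun _ q n => q ∣ n ^ 2 + 1 ∨ q ∣ n ^ 2 + 3)
      (fun _ q n _ => (Pool.Agent.NH85.MQ.dvd_iff q n).symm) m k κ δ hκ hκ1 hδ
    refine ⟨c, hc, B, ?_⟩
    filter_upwards [h] with X hX D hBD hDX A S hS hSR hSc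
    refine (hX D hBD hDX A S hS hSR hSc).trans ?_
    apply Nat.cast_le.2
    apply Set.ncard_le_ncard
    · rintro h ⟨h1, h2⟩
      refine ⟨h1, fun P hP h0 => ?_⟩
      obtain ⟨h3, h4⟩ := h2 P hP h0
      exact ⟨h3, (h4 ⟨0, hM⟩).1, fun j => (h4 j).2⟩
    · refine (Set.Finite.subset (Finset.finite_toSet
        (Fintype.piFinset (fun _ : Fin m => Finset.Icc 1 D))) ?_)
      rintro h ⟨h1, -⟩
      exact Finset.mem_coe.2 (Pool.Agent.X69.Ric.mem_box.2 h1)
  · obtain ⟨r₀, hr₀, h⟩ := Pool.Agent.X69.Ric.sys_almost_short Pool.Agent.NH85.MQ.FF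
      Pool.Agent.NH85.MQ.sys θ hθ hθ1
    refine ⟨r₀, hr₀, fun R hRr => ?_⟩
    obtain ⟨c, hc, h1⟩ := h R hRr
    have hR0 : (0 : ℝ) < 1 / R := by
      have : (0 : ℝ) < R := by exact_mod_cast (by omega : 0 < R)
      positivity
    refine ⟨c * θ ^ 2, by positivity, ?_⟩
    filter_upwards [h1, eventually_ge_atTop 3] with X hX1 hX3 Y hXY hYX
    have e : ∀ n : ℕ, n ∈ Pool.Agent.X69.Ric.AA Pool.Agent.NH85.MQ.FF R → n ∈ Almost R := by
      intro n hn
      have h0 := hn 0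
      have h1 := hn 1
      rw [Pool.Agent.NH85.MQ.eval0] at h0
      rw [Pool.Agent.NH85.MQ.eval1] at h1
      have e0 : ((n : ℤ) ^ 2 + 1).natAbs = n ^ 2 + 1 := by
        have : ((n : ℤ) ^ 2 + 1) = ((n ^ 2 + 1 : ℕ) : ℤ) := by push_cast; ring
        rw [this, Int.natAbs_natCast]
      have e1 : ((n : ℤ) ^ 2 + 3).natAbs = n ^ 2 + 3 := by
        have : ((n : ℤ) ^ 2 + 3) = ((n ^ 2 + 3 : ℕ) : ℤ) := by push_cast; ring
        rw [this, Int.natAbs_natCast]
      rw [e0, ArithmeticFunction.cardFactors_apply] at h0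
      rw [e1, ArithmeticFunction.cardFactors_apply] at h1
      refine ⟨h0.1, h1.1, ?_⟩
      rintro q hq (hd | hd)
      · exact h0.2 q hq (by exact_mod_cast hd)
      · exact h1.2 q hq (by exact_mod_cast hd)
    have hX0 : (0 : ℝ) < X := by exact_mod_cast (by omega : 0 < X)
    have hX1' : (1 : ℝ) < X := by exact_mod_cast (by omega : 1 < X)
    have hlX : 0 < Real.log X := Real.log_pos hX1'
    have hlY : θ * Real.log X ≤ Real.log Y := by
      rw [← Real.log_rpow hX0]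
      exact Real.log_le_log (Real.rpow_pos_of_pos hX0 _) hXY
    refine ⟨?_, fun n hn q hq hd => ?_⟩
    · have h2 := hX1 Y hXY hYX
      calc c * θ ^ 2 * Y / Real.log Y ^ 2 ≤ c * θ ^ 2 * Y / (θ * Real.log X) ^ 2 := by
            apply div_le_div_of_nonneg_left (by positivity) (by positivity)
            gcongr
        _ = c * Y / Real.log X ^ 2 := by field_simp
        _ ≤ _ := h2
        _ ≤ _ := by
            apply Nat.cast_le.2
            apply Set.ncard_le_ncard _ ((Set.finite_Ioc X (X + Y)).subset Set.inter_subset_right)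
            rintro n ⟨h3, h4⟩
            exact ⟨e n h4, h3⟩
    · refine lt_of_le_of_lt ?_ (hn.1.2.2 q hq hd)
      apply Real.rpow_le_rpow (Nat.cast_nonneg _) _ hR0.le
      have := hn.2.1
      exact_mod_cast (by omega : Y ≤ n)

end Pool.Agent.Results.MP_2dba45_nt.CommonPatterns
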