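import Pool.Agent.NH85.MQ.Sys
import Pool.Agent.X69.Ric.Sys
import Pool.Agent.X69.Ric.SysA

/-!
# Gaps between consecutive `n` with `n ^ 2 + 1` and `n ^ 2 + 3` prime or almost prime

Every dense set `A` of integers `n` in a short interval, for which `n ^ 2 + 1` and `n ^ 2 + 3` have no small
prime factor, has a positive proportion of all vectors of `m` consecutive gaps of the average size
`(log X) ^ 2`, each of them with the right frequency. The set of the `n` for which `n ^ 2 + 1` and `n ^ 2 + 3`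
have at most `R` prime factors is such a set in every interval `(X, X + Y]`, `X ^ θ ≤ Y ≤ X`.

The proof applies the theorems of `Pool.Agent.X69.Ric` (in the starting files) on systems of polynomials to
the system `X ^ 2 + 1`, `X ^ 2 + 3`.
-/

set_option autoImplicit false

namespace Pool.Agent.Results.MP_2dba45_nt.GapVectors

open Filter

/-- All prime factors of `n ^ 2 + 1` and of `n ^ 2 + 3` are at least `y`. -/
def Rough (y : ℝ) (n : ℕ) : Prop := ∀ q : ℕ, q.Prime → (q ∣ n ^ 2 + 1 ∨ q ∣ n ^ 2 + 3) → y ≤ q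

/-- `n, n + h 0, n + h 0 + h 1, ...` are `m + 1` consecutive elements of `A`: the elements `x` of `A` with
`n ≤ x ≤ n + h 0 + ... + h (m - 1)` are exactly these `m + 1` integers. -/
def Gaps (A : Set ℕ) {m : ℕ} (h : Fin m → ℕ) (n : ℕ) : Prop :=
  (∀ i, 0 < h i) ∧ ∀ x, (x ∈ A ∧ n ≤ x ∧ x ≤ n + ∑ i, h i) ↔
    ∃ j : ℕ, j ≤ m ∧ x = n + ∑ i ∈ (Finset.univ : Finset (Fin m)).filter (fun i : Fin m => (i : ℕ) < j), h i

/-- The `n` for which `n ^ 2 + 1` and `n ^ 2 + 3` have at most `R` prime factors, counted with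
multiplicity, all of them at least `n ^ (1 / R)`. -/
def Almost (R : ℕ) : Set ℕ :=
  {n | (n ^ 2 + 1).primeFactorsList.length ≤ R ∧ (n ^ 2 + 3).primeFactorsList.length ≤ R ∧
    Rough ((n : ℝ) ^ (1 / (R : ℝ))) n}

/-- **Gap vectors** of the `n` with `n ^ 2 + 1` and `n ^ 2 + 3` rough or almost prime. -/
theorem result :
    (∀ (δ θ c : ℝ) (m : ℕ), 0 < δ → 0 < θ → 0 < c → 1 ≤ m →
      ∃ K : ℝ, 0 < K ∧ ∃ κ : ℝ, 0 < κ ∧ ∀ᶠ X : ℕ in atTop, ∀ Z Y : ℕ, (X : ℝ) ^ θ ≤ Y →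
      ∀ A : Set ℕ, A ⊆ Set.Ioc Z (Z + Y) → (∀ n ∈ A, Rough ((X : ℝ) ^ δ) n) →
      c * Y / Real.log X ^ 2 ≤ (A.ncard : ℝ) →
      κ * Real.log X ^ (2 * m) ≤ (({h : Fin m → ℕ | (∀ i, 0 < h i ∧ (h i : ℝ) ≤ K * Real.log X ^ 2) ∧
        κ * Y / Real.log X ^ (2 * (m + 1)) ≤ (({n | n ∈ A ∧ Gaps A h n}.ncard : ℕ) : ℝ)}.ncard : ℕ) : ℝ)) ∧
    ∀ θ : ℝ, 0 < θ → θ ≤ 1 → ∃ r₀ : ℕ, 2 ≤ r₀ ∧ ∀ R : ℕ, r₀ ≤ R → ∃ c : ℝ, 0 < c ∧
      ∀ᶠ X : ℕ in atTop, ∀ Y : ℕ, (X : ℝ) ^ θ ≤ Y → Y ≤ X →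
        c * Y / Real.log X ^ 2 ≤ ((Almost R ∩ Set.Ioc X (X + Y)).ncard : ℝ) ∧
        ∀ n ∈ Almost R ∩ Set.Ioc X (X + Y), Rough ((X : ℝ) ^ (1 / (R : ℝ))) n := by
  refine ⟨fun δ θ c m hδ hθ hc hm => ?_, fun θ hθ hθ1 => ?_⟩
  · obtain ⟨K, hK, κ, hκ, h⟩ := Pool.Agent.X69.Ric.sys_right Pool.Agent.NH85.MQ.FF (by norm_num)
      Pool.Agent.NH85.MQ.sys δ θ c hδ hθ hc m hm
    refine ⟨K, hK, κ, hκ, ?_⟩
    filter_upwards [h] with X hX Z Y hXY A hA hAR hAc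
    exact hX Z Y hXY A hA (fun n hn i p hp hd =>
      hAR n hn p hp ((Pool.Agent.NH85.MQ.dvd_iff p n).1 ⟨i, hd⟩)) hAc
  · obtain ⟨r₀, hr₀, h⟩ := Pool.Agent.X69.Ric.sys_almost_short Pool.Agent.NH85.MQ.FF
      Pool.Agent.NH85.MQ.sys θ hθ hθ1
    refine ⟨r₀, hr₀, fun R hRr => ?_⟩
    obtain ⟨c, hc, h1⟩ := h R hRr
    have hR0 : (0 : ℝ) < 1 / R := by
      have : (0 : ℝ) < R := by exact_mod_cast (by omega : 0 < R)
      positivity
    refine ⟨c, hc, ?_⟩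
    filter_upwards [h1] with X hX1 Y hXY hYX
    have e : ∀ n : ℕ, n ∈ Pool.Agent.X69.Ric.AA Pool.Agent.NH85.MQ.FF R → n ∈ Almost R := by
      intro n hn
      have h0 := hn 0
      have h1 := hn 1
      rw [Pool.Agent.NH85.MQ.eval0] at h0
      rw [Pool.Agent.NH85.MQ.eval1] at h1
      have e0 : ((n : ℤ) ^ 2 + 1).natAbs = n ^ 2 + 1 := by
        have : ((n : ℤ) ^ 2 + 1) = ((n ^ 2 + 1 : ℕ) : ℤ) := by push_cast; ring
        rw [this, Int.natAbs_natCast]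
      have e1 : ((n : ℤ) ^ 2 + 3).natAbs = n ^ 2 + 3 := by
        have : ((n : ℤ) ^ 2 + 3) = ((n ^ 2 + 3 : ℕ) : ℤ) := by push_cast; ring
        rw [this, Int.natAbs_natCast]
      rw [e0, ArithmeticFunction.cardFactors_apply] at h0
      rw [e1, ArithmeticFunction.cardFactors_apply] at h1
      refine ⟨h0.1, h1.1, ?_⟩
      rintro q hq (hd | hd)
      · exact (h0.2 q hq (by exact_mod_cast hd)).le
      · exact (h1.2 q hq (by exact_mod_cast hd)).le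
    refine ⟨?_, fun n hn q hq hd => ?_⟩
    · refine (hX1 Y hXY hYX).trans ?_
      apply Nat.cast_le.2
      apply Set.ncard_le_ncard _ ((Set.finite_Ioc X (X + Y)).subset Set.inter_subset_right)
      rintro n ⟨h3, h4⟩
      exact ⟨e n h4, h3⟩
    · refine le_trans ?_ (hn.1.2.2 q hq hd)
      apply Real.rpow_le_rpow (Nat.cast_nonneg _) _ hR0.le
      have := hn.2.1
      exact_mod_cast (by omega : X ≤ n)

end Pool.Agent.Results.MP_2dba45_nt.GapVectors
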