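import Pool.Agent.NH85.MQ.Sys
import Pool.Agent.X69.Ric.Sys
import Pool.Agent.X69.Ric.SysA

/-!
# Poissonian pair correlations for the `n` with `n ^ 2 + 1` and `n ^ 2 + 3` prime or almost prime

Let `a 0 < a 1 < ...` be a sequence of positive integers such that all prime factors of `a k ^ 2 + 1` and
`a k ^ 2 + 3` are at least `(a k) ^ δ`, with at least `c X / (log X) ^ 2` terms up to `X`. The additive energy of
its first `N` terms is `O(N ^ 3 / (log N) ^ 2)`, and for almost all real `α` the sequence `α a k` has Poissonian pair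
correlations modulo one. The `n` for which `n ^ 2 + 1` and `n ^ 2 + 3` have at most `R` prime factors are
such a sequence.

The proof applies the theorems of `Pool.Agent.X69.Ric` (in the starting files) on systems of polynomials to
the system `X ^ 2 + 1`, `X ^ 2 + 3`.
-/

set_option autoImplicit false

namespace Pool.Agent.Results.MP_2dba45_nt.PairCorrelations

open Filter Topology

/-- All prime factors of `n ^ 2 + 1` and of `n ^ 2 + 3` are at least `y`. -/
def Rough (y : ℝ) (n : ℕ) : Prop := ∀ q : ℕ, q.Prime → (q ∣ n ^ 2 + 1 ∨ q ∣ n ^ 2 + 3) → y ≤ q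

/-- The `n` for which `n ^ 2 + 1` and `n ^ 2 + 3` have at most `R` prime factors, counted with
multiplicity, all of them at least `n ^ (1 / R)`. -/
def Almost (R : ℕ) : Set ℕ :=
  {n | (n ^ 2 + 1).primeFactorsList.length ≤ R ∧ (n ^ 2 + 3).primeFactorsList.length ≤ R ∧
    Rough ((n : ℝ) ^ (1 / (R : ℝ))) n}

/-- `A` has at least `c X / (log X) ^ 2` elements up to `X`, for some `c > 0` and all large `X`. -/
def Many (A : Set ℕ) : Prop :=
  ∃ c : ℝ, 0 < c ∧ ∀ᶠ X : ℕ in atTop, c * X / Real.log X ^ 2 ≤ ((A ∩ Set.Icc 1 X).ncard : ℝ)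

/-- The `k`-th element of `A` in increasing order, `k = 0, 1, ...`. -/
noncomputable def term (A : Set ℕ) (k : ℕ) : ℕ := Nat.nth (· ∈ A) k

/-- The number of the quadruples of indices below `N` with `a i + a j = a k + a l`. -/
noncomputable def energy (A : Set ℕ) (N : ℕ) : ℕ :=
  {p : (ℕ × ℕ) × (ℕ × ℕ) | p.1.1 < N ∧ p.1.2 < N ∧ p.2.1 < N ∧ p.2.2 < N ∧
    term A p.1.1 + term A p.1.2 = term A p.2.1 + term A p.2.2}.ncard

/-- The distance to the nearest integer. -/
noncomputable def dist1 (x : ℝ) : ℝ := |x - round x|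

/-- Poissonian pair correlations of `α a 0, α a 1, ...` modulo one: for every `s > 0` the number of the pairs of
different indices below `N` with `‖α a i - α a j‖ < s / N`, divided by `N`, tends to `2 s`. -/
def Poissonian (A : Set ℕ) (α : ℝ) : Prop := ∀ s : ℝ, 0 < s →
  Tendsto (fun N : ℕ => (1 / (N : ℝ)) * ({p : ℕ × ℕ | p.1 < N ∧ p.2 < N ∧ p.1 ≠ p.2 ∧
    dist1 ((term A p.1 : ℝ) * α - (term A p.2 : ℝ) * α) < s / N}.ncard : ℝ)) atTop (𝓝 (2 * s))

/-- **Poissonian pair correlations** for the `n` with `n ^ 2 + 1` and `n ^ 2 + 3` rough or almost prime. -/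
theorem result :
    (∀ (A : Set ℕ) (δ : ℝ), 0 < δ → (∀ n ∈ A, Rough ((n : ℝ) ^ δ) n) → Many A →
      (∃ C : ℝ, 0 < C ∧ ∀ᶠ N : ℕ in atTop, (energy A N : ℝ) ≤ C * ((N : ℝ) ^ 3 / Real.log N ^ 2)) ∧
      ∀ᵐ α : ℝ, Poissonian A α) ∧
    ∃ r₀ : ℕ, 2 ≤ r₀ ∧ ∀ R : ℕ, r₀ ≤ R → Many (Almost R) := by
  classical
  refine ⟨fun A δ hδ hA hM => ?_, ?_⟩
  · obtain ⟨⟨C, hC, h1⟩, h2⟩ := Pool.Agent.X69.Ric.sys_ppc Pool.Agent.NH85.MQ.FF le_rfl
      Pool.Agent.NH85.MQ.sys A δ hδ (fun n hn i p hp hd =>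
        hA n hn p hp ((Pool.Agent.NH85.MQ.dvd_iff p n).1 ⟨i, hd⟩)) hM
    refine ⟨⟨C, hC, ?_⟩, ?_⟩
    · filter_upwards [h1] with N hN
      refine le_trans (le_of_eq ?_) hN
      unfold energy Pool.Agent.X69.Ric.energyN term
      rw [← Set.ncard_coe_finset]
      congr 2
      ext p
      simp only [Set.mem_ofPred_eq, Finset.coe_filter, Finset.mem_product, Finset.mem_range]
      tauto
    · filter_upwards [h2] with α hα s hs
      refine (hα s hs).congr (fun N => ?_)
      unfold dist1 term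
      rw [← Set.ncard_coe_finset]
      congr 3
      ext p
      simp only [Set.mem_ofPred_eq, Finset.coe_filter, Finset.mem_product, Finset.mem_range]
      tauto
  · obtain ⟨r₀, hr₀, h⟩ := Pool.Agent.X69.Ric.sys_almost Pool.Agent.NH85.MQ.FF
      Pool.Agent.NH85.MQ.sys
    refine ⟨r₀, hr₀, fun R hRr => ?_⟩
    obtain ⟨c, hc, h1⟩ := h R hRr
    refine ⟨c, hc, ?_⟩
    filter_upwards [h1] with X hX
    have e : ∀ n : ℕ, n ∈ Pool.Agent.X69.Ric.AA Pool.Agent.NH85.MQ.FF R → n ∈ Almost R := by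
      intro n hn
      have h0 := hn 0
      have h1 := hn 1
      rw [Pool.Agent.NH85.MQ.eval0] at h0
      rw [Pool.Agent.NH85.MQ.eval1] at h1
      have e0 : ((n : ℤ) ^ 2 + 1).natAbs = n ^ 2 + 1 := by
        have : ((n : ℤ) ^ 2 + 1) = ((n ^ 2 + 1 : ℕ) : ℤ) := by push_cast; ring
        rw [this, Int.natAbs_natCast]
      have e1 : ((n : ℤ) ^ 2 + 3).natAbs = n ^ 2 + 3 := by
        have : ((n : ℤ) ^ 2 + 3) = ((n ^ 2 + 3 : ℕ) : ℤ) := by push_cast; ring
        rw [this, Int.natAbs_natCast]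
      rw [e0, ArithmeticFunction.cardFactors_apply] at h0
      rw [e1, ArithmeticFunction.cardFactors_apply] at h1
      refine ⟨h0.1, h1.1, ?_⟩
      rintro q hq (hd | hd)
      · exact (h0.2 q hq (by exact_mod_cast hd)).le
      · exact (h1.2 q hq (by exact_mod_cast hd)).le
    refine hX.trans ?_
    apply Nat.cast_le.2
    apply Set.ncard_le_ncard
    · exact Set.inter_subset_inter_left _ e
    · exact (Set.finite_Icc 1 X).subset Set.inter_subset_right

end Pool.Agent.Results.MP_2dba45_nt.PairCorrelations
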