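import Pool.Agent.NH85.MQ.Sys
import Pool.Agent.X69.Ric.PatC
import Pool.Agent.X69.Ric.SysA

/-!
# Almost all elements of a set of `m` with `m ^ 2 + 1` and `m ^ 2 + 3` rough are centres of patterns

Let `S` be an arbitrary set of integers `n` in an interval of length `X` such that `n ^ 2 + 1` and `n ^ 2 + 3`
have no prime factors up to `X ^ κ`. All but at most `ε X / (log X) ^ 2` elements `n` of `S` are the centres of
at least `c D ^ m / (log X) ^ (2 ((2 K + 1) ^ m - 1))` patterns `n + f · h` (`|f i| ≤ K`) in `S` with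
`h ∈ {1, ..., D} ^ m`, for every `D` between a power of `log X` and `X`: the order of magnitude which is
predicted for random sets of this density.

The proof applies the theorems of `Pool.Agent.X69.Ric` (in the starting files) on systems of polynomials to
the system `X ^ 2 + 1`, `X ^ 2 + 3`.
-/

set_option autoImplicit false

namespace Pool.Agent.Results.MP_2dba45_nt.TypicalCentres

open Filter

/-- All prime factors of `n ^ 2 + 1` and of `n ^ 2 + 3` are larger than `y`. -/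
def Rough (y : ℝ) (n : ℕ) : Prop := ∀ q : ℕ, q.Prime → (q ∣ n ^ 2 + 1 ∨ q ∣ n ^ 2 + 3) → y < q

/-- `n` is a centre in `S` for `h`: all the integers `n + f · h` with `|f i| ≤ K` for all `i` are in `S`. -/
def Centre (K : ℕ) (S : Set ℕ) {m : ℕ} (n : ℕ) (h : Fin m → ℕ) : Prop :=
  ∀ f : Fin m → ℤ, (∀ i, |f i| ≤ K) → ∃ s ∈ S, (s : ℤ) = n + ∑ i, f i * (h i : ℤ)

/-- The number of the vectors `h ∈ {1, ..., D} ^ m` for which `n` is a centre in `S`. -/
noncomputable def patterns (K m D : ℕ) (S : Set ℕ) (n : ℕ) : ℕ :=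
  {h : Fin m → ℕ | (∀ i, 1 ≤ h i ∧ h i ≤ D) ∧ Centre K S n h}.ncard

/-- The `n` for which `n ^ 2 + 1` and `n ^ 2 + 3` have at most `R` prime factors, counted with
multiplicity, all of them larger than `n ^ (1 / R)`. -/
def Almost (R : ℕ) : Set ℕ :=
  {n | (n ^ 2 + 1).primeFactorsList.length ≤ R ∧ (n ^ 2 + 3).primeFactorsList.length ≤ R ∧
    Rough ((n : ℝ) ^ (1 / (R : ℝ))) n}

/-- **Typical centres** of patterns in the `n` with `n ^ 2 + 1` and `n ^ 2 + 3` rough or almost prime. -/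
theorem result :
    (∀ (m K : ℕ) (κ ε : ℝ), 1 ≤ K → 0 < κ → κ ≤ 1 → 0 < ε →
      ∃ c : ℝ, 0 < c ∧ ∃ B : ℕ, ∀ᶠ X : ℕ in atTop,
      ∀ A D : ℕ, Real.log X ^ B ≤ D → D ≤ X → ∀ S : Set ℕ, S ⊆ Set.Ioc A (A + X) →
        (∀ n ∈ S, Rough ((X : ℝ) ^ κ) n) →
        ({n : ℕ | n ∈ S ∧ (patterns K m D S n : ℝ) <
          c * ((D : ℝ) ^ m / Real.log X ^ (2 * ((2 * K + 1) ^ m - 1)))}.ncard : ℝ) ≤
          ε * X / Real.log X ^ 2) ∧
    ∀ θ : ℝ, 0 < θ → θ ≤ 1 → ∃ r₀ : ℕ, 2 ≤ r₀ ∧ ∀ R : ℕ, r₀ ≤ R → ∃ δ : ℝ, 0 < δ ∧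
      ∀ᶠ X : ℕ in atTop, ∀ Y : ℕ, (X : ℝ) ^ θ ≤ Y → Y ≤ X →
        δ * Y / Real.log Y ^ 2 ≤ ((Almost R ∩ Set.Ioc X (X + Y)).ncard : ℝ) ∧
        ∀ n ∈ Almost R ∩ Set.Ioc X (X + Y), Rough ((Y : ℝ) ^ (1 / (R : ℝ))) n := by
  refine ⟨fun m K κ ε hK hκ hκ1 hε => ?_, fun θ hθ hθ1 => ?_⟩
  · obtain ⟨c, hc, B, h⟩ := Pool.Agent.X69.Ric.sys_typS Pool.Agent.NH85.MQ.FF
      Pool.Agent.NH85.MQ.sys (fun q n => q ∣ n ^ 2 + 1 ∨ q ∣ n ^ 2 + 3)
      (fun q n _ h => (Pool.Agent.NH85.MQ.dvd_iff q n).1 h) m K hK κ ε hκ hκ1 hε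
    refine ⟨c, hc, B, ?_⟩
    filter_upwards [h] with X hX A D hBD hDX S hS hSR
    exact hX A D hBD hDX S hS hSR
  · obtain ⟨r₀, hr₀, h⟩ := Pool.Agent.X69.Ric.sys_almost_short Pool.Agent.NH85.MQ.FF
      Pool.Agent.NH85.MQ.sys θ hθ hθ1
    refine ⟨r₀, hr₀, fun R hRr => ?_⟩
    obtain ⟨c, hc, h1⟩ := h R hRr
    have hR0 : (0 : ℝ) < 1 / R := by
      have : (0 : ℝ) < R := by exact_mod_cast (by omega : 0 < R)
      positivity
    refine ⟨c * θ ^ 2, by positivity, ?_⟩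
    filter_upwards [h1, eventually_ge_atTop 3] with X hX1 hX3 Y hXY hYX
    have e : ∀ n : ℕ, n ∈ Pool.Agent.X69.Ric.AA Pool.Agent.NH85.MQ.FF R → n ∈ Almost R := by
      intro n hn
      have h0 := hn 0
      have h1 := hn 1
      rw [Pool.Agent.NH85.MQ.eval0] at h0
      rw [Pool.Agent.NH85.MQ.eval1] at h1
      have e0 : ((n : ℤ) ^ 2 + 1).natAbs = n ^ 2 + 1 := by
        have : ((n : ℤ) ^ 2 + 1) = ((n ^ 2 + 1 : ℕ) : ℤ) := by push_cast; ring
        rw [this, Int.natAbs_natCast]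
      have e1 : ((n : ℤ) ^ 2 + 3).natAbs = n ^ 2 + 3 := by
        have : ((n : ℤ) ^ 2 + 3) = ((n ^ 2 + 3 : ℕ) : ℤ) := by push_cast; ring
        rw [this, Int.natAbs_natCast]
      rw [e0, ArithmeticFunction.cardFactors_apply] at h0
      rw [e1, ArithmeticFunction.cardFactors_apply] at h1
      refine ⟨h0.1, h1.1, ?_⟩
      rintro q hq (hd | hd)
      · exact h0.2 q hq (by exact_mod_cast hd)
      · exact h1.2 q hq (by exact_mod_cast hd)
    have hX0 : (0 : ℝ) < X := by exact_mod_cast (by omega : 0 < X)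
    have hX1' : (1 : ℝ) < X := by exact_mod_cast (by omega : 1 < X)
    have hlX : 0 < Real.log X := Real.log_pos hX1'
    have hlY : θ * Real.log X ≤ Real.log Y := by
      rw [← Real.log_rpow hX0]
      exact Real.log_le_log (Real.rpow_pos_of_pos hX0 _) hXY
    refine ⟨?_, fun n hn q hq hd => ?_⟩
    · have h2 := hX1 Y hXY hYX
      calc c * θ ^ 2 * Y / Real.log Y ^ 2 ≤ c * θ ^ 2 * Y / (θ * Real.log X) ^ 2 := by
            apply div_le_div_of_nonneg_left (by positivity) (by positivity)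
            gcongr
        _ = c * Y / Real.log X ^ 2 := by field_simp
        _ ≤ _ := h2
        _ ≤ _ := by
            apply Nat.cast_le.2
            apply Set.ncard_le_ncard _ ((Set.finite_Ioc X (X + Y)).subset Set.inter_subset_right)
            rintro n ⟨h3, h4⟩
            exact ⟨e n h4, h3⟩
    · refine lt_of_le_of_lt ?_ (hn.1.2.2 q hq hd)
      apply Real.rpow_le_rpow (Nat.cast_nonneg _) _ hR0.le
      have := hn.2.1
      exact_mod_cast (by omega : Y ≤ n)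

end Pool.Agent.Results.MP_2dba45_nt.TypicalCentres
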